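import Mathlib

/-!
# Convex geometries, resolutions, primitive convex geometries: definitions and counting

We show that, with `L n` the number of convex geometries on `Fin n` and `N n` the number of
non-primitive ones, `N n * n! * 2 ^ n ≤ 2 * L n` for all large `n`.
-/

set_option autoImplicit false

open Set

namespace Pool.Agent.Work.MP_0c861e_co

/-! ### Definitions -/

/-- A convex geometry on `X`: a family of subsets of `X` with (G1), (G2), (G3). -/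
structure IsConvexGeometry {X : Type} (𝒢 : Set (Set X)) : Prop where
  empty_mem : (∅ : Set X) ∈ 𝒢
  inter_mem : ∀ F ∈ 𝒢, ∀ G ∈ 𝒢, F ∩ G ∈ 𝒢
  exists_insert : ∀ G ∈ 𝒢, G ≠ Set.univ → ∃ x, x ∉ G ∧ G ∪ {x} ∈ 𝒢

/-- `conv(A)`: the intersection of all members of `𝒢` containing `A`, that is (for a convex
geometry on a finite set) the least member containing `A`. -/
def conv {X : Type} (𝒢 : Set (Set X)) (A : Set X) : Set X := ⋂₀ {F | F ∈ 𝒢 ∧ A ⊆ F}

/-- `ex(A) = {a ∈ A : a ∉ conv(A \ {a})}`. -/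
def ex {X : Type} (𝒢 : Set (Set X)) (A : Set X) : Set X := {a | a ∈ A ∧ a ∉ conv 𝒢 (A \ {a})}

/-- The resolution of the base `(X, 𝒢X)` with fibers `(Y x, 𝒢Y x)`, on `Z = Σ x, Y x`, with
`π = Sigma.fst`. -/
def resolution {X : Type} {Y : X → Type} (𝒢X : Set (Set X)) (𝒢Y : ∀ x, Set (Set (Y x))) :
    Set (Set (Σ x, Y x)) :=
  {D | Sigma.fst '' D ∈ 𝒢X ∧
    (∀ x ∈ Sigma.fst '' D, {y : Y x | (⟨x, y⟩ : Σ x, Y x) ∈ D} ∈ 𝒢Y x) ∧
    ∀ x ∈ Sigma.fst '' D \ ex 𝒢X (Sigma.fst '' D), ∀ y : Y x, (⟨x, y⟩ : Σ x, Y x) ∈ D}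

/-- Two set families are isomorphic if a bijection of the ground sets maps members exactly onto
members. -/
def Iso {X Y : Type} (𝒢 : Set (Set X)) (ℋ : Set (Set Y)) : Prop :=
  ∃ e : X ≃ Y, ∀ A : Set X, A ∈ 𝒢 ↔ e '' A ∈ ℋ

/-- `𝒢` is primitive if it is not isomorphic to a resolution whose base and fibers are convex
geometries on finite nonempty sets, with at least two elements in the base and at least two
elements in some fiber. -/
def IsPrimitive {Z : Type} (𝒢 : Set (Set Z)) : Prop :=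
  ¬ ∃ (X : Type) (Y : X → Type) (𝒢X : Set (Set X)) (𝒢Y : ∀ x, Set (Set (Y x))),
    Finite X ∧ (∀ x, Finite (Y x)) ∧ (∀ x, Nonempty (Y x)) ∧
    IsConvexGeometry 𝒢X ∧ (∀ x, IsConvexGeometry (𝒢Y x)) ∧
    2 ≤ Nat.card X ∧ (∃ x, 2 ≤ Nat.card (Y x)) ∧ Iso 𝒢 (resolution 𝒢X 𝒢Y)

/-- The type of convex geometries on `X`. -/
abbrev CG (X : Type) : Type := {𝒢 : Set (Set X) // IsConvexGeometry 𝒢}

/-- `L_n`: the number of convex geometries on the labeled set `Fin n`. -/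
noncomputable def L (n : ℕ) : ℕ := Nat.card {𝒢 : Set (Set (Fin n)) // IsConvexGeometry 𝒢}

/-- `L_n^pr`: the number of primitive convex geometries on the labeled set `Fin n`. -/
noncomputable def Lpr (n : ℕ) : ℕ :=
  Nat.card {𝒢 : Set (Set (Fin n)) // IsConvexGeometry 𝒢 ∧ IsPrimitive 𝒢}

/-! ### Basic facts -/

section basic

variable {X : Type}

lemma IsConvexGeometry.univ_mem [Finite X] {𝒢 : Set (Set X)} (h : IsConvexGeometry 𝒢) :
    (Set.univ : Set X) ∈ 𝒢 := by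
  obtain ⟨m, hm⟩ := (Set.toFinite 𝒢).exists_maximal ⟨∅, h.empty_mem⟩
  by_cases hu : m = Set.univ
  · exact hu ▸ hm.1
  · obtain ⟨x, hx, hx2⟩ := h.exists_insert m hm.1 hu
    exact absurd (hm.2 hx2 Set.subset_union_left (Or.inr rfl)) hx

lemma mem_ex_iff {𝒢 : Set (Set X)} (h : IsConvexGeometry 𝒢) {C : Set X} (hC : C ∈ 𝒢) {x : X}
    (hx : x ∈ C) : x ∈ ex 𝒢 C ↔ C \ {x} ∈ 𝒢 := by
  constructor
  · rintro ⟨-, h2⟩
    simp only [conv, Set.mem_sInter, Set.mem_ofPred_eq, not_forall] at h2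
    obtain ⟨F, ⟨hF, hCF⟩, hxF⟩ := h2
    have : C \ {x} = C ∩ F := by
      ext a
      constructor
      · rintro ⟨ha, hax⟩
        exact ⟨ha, hCF ⟨ha, hax⟩⟩
      · rintro ⟨ha, haF⟩
        refine ⟨ha, ?_⟩
        rintro rfl
        exact hxF haF
    rw [this]
    exact h.inter_mem _ hC _ hF
  · intro h2
    refine ⟨hx, ?_⟩
    intro h3
    have := h3 (C \ {x}) ⟨h2, subset_rfl⟩
    exact this.2 rfl

/-- Transport of a set family along a bijection. -/
def tr {X Y : Type} (ε : X ≃ Y) (𝒢 : Set (Set X)) : Set (Set Y) := {A | ε ⁻¹' A ∈ 𝒢}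

lemma IsConvexGeometry.tr {X Y : Type} (ε : X ≃ Y) {𝒢 : Set (Set X)} (h : IsConvexGeometry 𝒢) :
    IsConvexGeometry (tr ε 𝒢) where
  empty_mem := by
    change ε ⁻¹' ∅ ∈ 𝒢
    rw [Set.preimage_empty]
    exact h.empty_mem
  inter_mem F hF G hG := h.inter_mem _ hF _ hG
  exists_insert G hG hne := by
    obtain ⟨x, hx1, hx2⟩ := h.exists_insert _ hG (by
      intro h2
      apply hne
      rw [Set.preimage_eq_univ_iff, ε.range_eq_univ] at h2
      exact Set.univ_subset_iff.1 h2)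
    refine ⟨ε x, hx1, ?_⟩
    change ε ⁻¹' (G ∪ {ε x}) ∈ 𝒢
    have : ε ⁻¹' (G ∪ {ε x}) = ε ⁻¹' G ∪ {x} := by
      ext a
      simp
    rw [this]
    exact hx2

lemma card_CG_congr {X Y : Type} (ε : X ≃ Y) : Nat.card (CG X) = Nat.card (CG Y) := by
  apply Nat.card_congr
  refine ⟨fun 𝒢 => ⟨tr ε 𝒢.1, 𝒢.2.tr ε⟩, fun 𝒢 => ⟨tr ε.symm 𝒢.1, 𝒢.2.tr ε.symm⟩, ?_, ?_⟩
  · rintro ⟨𝒢, h⟩
    apply Subtype.ext
    ext A
    change ε ⁻¹' (ε.symm ⁻¹' A) ∈ 𝒢 ↔ A ∈ 𝒢
    rw [← Set.preimage_comp, ε.symm_comp_self, Set.preimage_id]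
  · rintro ⟨𝒢, h⟩
    apply Subtype.ext
    ext A
    change ε.symm ⁻¹' (ε ⁻¹' A) ∈ 𝒢 ↔ A ∈ 𝒢
    rw [← Set.preimage_comp, ε.self_comp_symm, Set.preimage_id]

lemma card_CG [Finite X] {m : ℕ} (h : Nat.card X = m) : Nat.card (CG X) = L m := by
  obtain ⟨e⟩ := Finite.card_eq.1 (show Nat.card X = Nat.card (Fin m) by rw [h, Nat.card_fin])
  exact card_CG_congr e

lemma card_CG_le [Finite X] {m : ℕ} (h : Nat.card X = m) : Nat.card (CG X) ≤ 2 ^ 2 ^ m := by
  have h1 : Nat.card (CG X) ≤ Nat.card (Set (Set X)) :=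
    Nat.card_le_card_of_injective Subtype.val Subtype.val_injective
  have h2 : ∀ (Y : Type) [Finite Y], Nat.card (Set Y) = 2 ^ Nat.card Y := by
    intro Y _
    have := Fintype.ofFinite Y
    rw [Nat.card_eq_fintype_card, Nat.card_eq_fintype_card, Fintype.card_set]
  rw [h2, h2, h] at h1
  exact h1

lemma L_le (m : ℕ) : L m ≤ 2 ^ 2 ^ m := card_CG_le (Nat.card_fin m)

lemma L_pos (m : ℕ) : 0 < L m := by
  have : Nonempty (CG (Fin m)) := ⟨⟨Set.univ, ⟨trivial, fun _ _ _ _ => trivial, by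
    intro G _ hG
    obtain ⟨x, hx⟩ := (Set.ne_univ_iff_exists_notMem G).1 hG
    exact ⟨x, hx, trivial⟩⟩⟩⟩
  exact Nat.card_pos

end basic

/-! ### Extensions by one element -/

section extension

variable {X : Type}

/-- The one-element extension of `𝒢` given by the order ideal `𝒬` of `𝒢`. -/
def extFam (𝒢 𝒬 : Set (Set X)) : Set (Set (Option X)) :=
  {F | (none ∉ F ∧ some ⁻¹' F ∈ 𝒬) ∨ (none ∈ F ∧ some ⁻¹' F ∈ 𝒢)}

lemma isConvexGeometry_ext {𝒢 𝒬 : Set (Set X)} (h : IsConvexGeometry 𝒢) (hP : 𝒬 ⊆ 𝒢)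
    (h0 : ∅ ∈ 𝒬) (hd : ∀ A ∈ 𝒬, ∀ B ∈ 𝒢, B ⊆ A → B ∈ 𝒬) : IsConvexGeometry (extFam 𝒢 𝒬) where
  empty_mem := Or.inl ⟨fun h => h, by rw [Set.preimage_empty]; exact h0⟩
  inter_mem := by
    rintro F (⟨h1, h2⟩ | ⟨h1, h2⟩) G (⟨h3, h4⟩ | ⟨h3, h4⟩)
    · exact Or.inl ⟨fun h => h1 h.1,
        hd _ h2 _ (h.inter_mem _ (hP h2) _ (hP h4)) Set.inter_subset_left⟩
    · exact Or.inl ⟨fun h => h1 h.1,
        hd _ h2 _ (h.inter_mem _ (hP h2) _ h4) Set.inter_subset_left⟩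
    · exact Or.inl ⟨fun h => h3 h.2,
        hd _ h4 _ (h.inter_mem _ h2 _ (hP h4)) Set.inter_subset_right⟩
    · exact Or.inr ⟨⟨h1, h3⟩, h.inter_mem _ h2 _ h4⟩
  exists_insert := by
    rintro F (⟨h1, h2⟩ | ⟨h1, h2⟩) hne
    · refine ⟨none, h1, Or.inr ⟨Or.inr rfl, ?_⟩⟩
      have : some ⁻¹' (F ∪ {none}) = some ⁻¹' F := by
        ext a; simp
      rw [this]
      exact hP h2
    · obtain ⟨x, hx1, hx2⟩ := h.exists_insert _ h2 (by
        intro h3
        apply hne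
        ext o
        cases o with
        | none => simpa using h1
        | some a =>
          have : a ∈ some ⁻¹' F := by rw [h3]; trivial
          simpa using this)
      refine ⟨some x, hx1, Or.inr ⟨Or.inl h1, ?_⟩⟩
      have : some ⁻¹' (F ∪ {some x}) = some ⁻¹' F ∪ {x} := by
        ext a; simp
      rw [this]
      exact hx2

lemma mem_ext_none {𝒢 𝒬 : Set (Set X)} (A : Set X) :
    (some '' A ∪ {none} : Set (Option X)) ∈ extFam 𝒢 𝒬 ↔ A ∈ 𝒢 := by
  have h1 : some ⁻¹' (some '' A ∪ {none} : Set (Option X)) = A := by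
    ext a; simp
  have h2 : (none : Option X) ∈ (some '' A ∪ {none} : Set (Option X)) := Or.inr rfl
  simp only [extFam, Set.mem_ofPred_eq, h1, h2, not_true_eq_false, false_and, true_and, false_or]

lemma mem_ext_some {𝒢 𝒬 : Set (Set X)} (A : Set X) :
    (some '' A : Set (Option X)) ∈ extFam 𝒢 𝒬 ↔ A ∈ 𝒬 := by
  have h1 : some ⁻¹' (some '' A : Set (Option X)) = A := by
    ext a; simp
  have h2 : (none : Option X) ∉ (some '' A : Set (Option X)) := by simp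
  simp only [extFam, Set.mem_ofPred_eq, h1, h2, not_false_eq_true, false_and, true_and, or_false]

/-- `𝒢` contains an antichain of `w` nonempty sets. -/
def Rich (w : ℕ) (𝒢 : Set (Set X)) : Prop :=
  ∃ ι : Fin w → Set X, (∀ j, ι j ∈ 𝒢) ∧ (∀ j, ι j ≠ ∅) ∧ ∀ j k, ι j ⊆ ι k → j = k

lemma card_rich_mul_le [Finite X] (w : ℕ) :
    Nat.card {𝒢 : Set (Set X) // IsConvexGeometry 𝒢 ∧ Rich w 𝒢} * 2 ^ w ≤
      Nat.card (CG (Option X)) := by
  classical
  have hcard : Nat.card (Set (Fin w)) = 2 ^ w := by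
    rw [Nat.card_eq_fintype_card, Fintype.card_set, Fintype.card_fin]
  rw [← hcard, ← Nat.card_prod]
  choose ι hι1 hι2 hι3 using fun 𝒢 : {𝒢 : Set (Set X) // IsConvexGeometry 𝒢 ∧ Rich w 𝒢} => 𝒢.2.2
  let P : {𝒢 : Set (Set X) // IsConvexGeometry 𝒢 ∧ Rich w 𝒢} → Set (Fin w) → Set (Set X) :=
    fun 𝒢 T => {F | F ∈ 𝒢.1 ∧ (F = ∅ ∨ ∃ t ∈ T, F ⊆ ι 𝒢 t)}
  have hP : ∀ 𝒢 T, IsConvexGeometry (extFam 𝒢.1 (P 𝒢 T)) := by
    intro 𝒢 T
    refine isConvexGeometry_ext 𝒢.2.1 (fun F hF => hF.1) ⟨𝒢.2.1.empty_mem, Or.inl rfl⟩ ?_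
    rintro A ⟨hA1, hA2⟩ B hB hBA
    refine ⟨hB, ?_⟩
    rcases hA2 with rfl | ⟨t, ht, hAt⟩
    · exact Or.inl (Set.subset_empty_iff.1 hBA)
    · exact Or.inr ⟨t, ht, hBA.trans hAt⟩
  let Φ : {𝒢 : Set (Set X) // IsConvexGeometry 𝒢 ∧ Rich w 𝒢} × Set (Fin w) → CG (Option X) :=
    fun p => ⟨extFam p.1.1 (P p.1 p.2), hP p.1 p.2⟩
  apply Nat.card_le_card_of_injective Φ
  rintro ⟨𝒢, T⟩ ⟨ℋ, S⟩ h
  have h1 : extFam 𝒢.1 (P 𝒢 T) = extFam ℋ.1 (P ℋ S) := congrArg Subtype.val h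
  have h2 : 𝒢 = ℋ := by
    apply Subtype.ext
    ext A
    rw [← mem_ext_none (𝒢 := 𝒢.1) (𝒬 := P 𝒢 T) A, h1, mem_ext_none]
  subst h2
  have h3 : P 𝒢 T = P 𝒢 S := by
    ext A
    rw [← mem_ext_some (𝒢 := 𝒢.1) (𝒬 := P 𝒢 T) A, h1, mem_ext_some]
  have key : ∀ (U : Set (Fin w)) (j : Fin w), j ∈ U ↔ ι 𝒢 j ∈ P 𝒢 U := by
    intro U j
    constructor
    · intro hj
      exact ⟨hι1 𝒢 j, Or.inr ⟨j, hj, subset_rfl⟩⟩
    · rintro ⟨-, h4 | ⟨t, ht, htj⟩⟩
      · exact absurd h4 (hι2 𝒢 j)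
      · rw [hι3 𝒢 j t htj]; exact ht
  have h4 : T = S := by
    ext j
    rw [key T j, key S j, h3]
  rw [h4]

lemma L_mono_succ (m : ℕ) : L m ≤ L (m + 1) := by
  have h1 := card_rich_mul_le (X := Fin m) 0
  have h2 : Nat.card (CG (Option (Fin m))) = L (m + 1) :=
    card_CG (by rw [Finite.card_option, Nat.card_fin])
  rw [h2, pow_zero, mul_one] at h1
  refine le_trans ?_ h1
  apply Nat.card_le_card_of_injective
    (fun 𝒢 : CG (Fin m) => (⟨𝒢.1, 𝒢.2, ⟨fun j => j.elim0, fun j => j.elim0, fun j => j.elim0,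
      fun j => j.elim0⟩⟩ : {𝒢 : Set (Set (Fin m)) // IsConvexGeometry 𝒢 ∧ Rich 0 𝒢}))
  intro a b hab
  have h3 := congrArg Subtype.val hab
  exact Subtype.ext h3

lemma L_mono {a b : ℕ} (h : a ≤ b) : L a ≤ L b :=
  monotone_nat_of_le_succ L_mono_succ h

/-- There are at least `2 ^ (n choose n/2)` convex geometries on `n + 1` elements. -/
lemma two_pow_choose_le (n : ℕ) (hn : 2 ≤ n) : 2 ^ (n.choose (n / 2)) ≤ L (n + 1) := by
  classical
  have h1 := card_rich_mul_le (X := Fin n) (n.choose (n / 2))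
  have h2 : Nat.card (CG (Option (Fin n))) = L (n + 1) :=
    card_CG (by rw [Finite.card_option, Nat.card_fin])
  rw [h2] at h1
  refine le_trans ?_ h1
  refine Nat.le_mul_of_pos_left _ ?_
  have hne : Nonempty {𝒢 : Set (Set (Fin n)) // IsConvexGeometry 𝒢 ∧
      Rich (n.choose (n / 2)) 𝒢} := by
    refine ⟨⟨Set.univ, ⟨trivial, fun _ _ _ _ => trivial, ?_⟩, ?_⟩⟩
    · intro G _ hG
      obtain ⟨x, hx⟩ := (Set.ne_univ_iff_exists_notMem G).1 hG
      exact ⟨x, hx, trivial⟩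
    · have hc : (Finset.powersetCard (n / 2) (Finset.univ : Finset (Fin n))).card =
          n.choose (n / 2) := by
        rw [Finset.card_powersetCard, Finset.card_univ, Fintype.card_fin]
      let e := (Finset.equivFinOfCardEq hc).symm
      have he : ∀ j, ((e j : Finset (Fin n))).card = n / 2 := fun j =>
        (Finset.mem_powersetCard.1 (e j).2).2
      refine ⟨fun j => ((e j : Finset (Fin n)) : Set (Fin n)), fun _ => trivial, ?_, ?_⟩
      · intro j hj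
        have h3 := he j
        rw [Finset.coe_eq_empty] at hj
        rw [hj, Finset.card_empty] at h3
        omega
      · intro j k hjk
        have h3 : (e j : Finset (Fin n)) ⊆ e k := Finset.coe_subset.1 hjk
        have h4 := Finset.eq_of_subset_of_card_le h3 (by rw [he, he])
        exact e.injective (Subtype.ext h4)
  exact Nat.card_pos

end extension

/-! ### Few convex geometries contain no large antichain -/

section sparse

variable {X : Type}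

lemma ncard_le_of_not_rich [Finite X] {w : ℕ} (hw : 0 < w) {𝒢 : Set (Set X)}
    (h : ¬ Rich w 𝒢) : 𝒢.ncard ≤ (Nat.card X + 1) * w := by
  classical
  have := Fintype.ofFinite X
  have hfin : 𝒢.Finite := Set.toFinite 𝒢
  -- each level has fewer than `w` members, apart from the empty set
  have hlev : ∀ i ∈ Finset.range (Nat.card X + 1), ({A | A ∈ 𝒢 ∧ A.ncard = i}).ncard ≤ w := by
    intro i _
    by_contra hcon
    push Not at hcon
    apply h
    have hf : {A | A ∈ 𝒢 ∧ A.ncard = i}.Finite := Set.toFinite _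
    rcases Nat.eq_zero_or_pos i with rfl | hi
    · exfalso
      have h1 : {A | A ∈ 𝒢 ∧ A.ncard = 0} ⊆ {(∅ : Set X)} := by
        rintro A ⟨-, hA⟩
        rw [Set.ncard_eq_zero (Set.toFinite A)] at hA
        exact hA
      have h2 := Set.ncard_le_ncard h1
      rw [Set.ncard_singleton] at h2
      omega
    · rw [Set.ncard_eq_toFinset_card _ hf] at hcon
      obtain ⟨t, ht1, ht2⟩ := Finset.exists_subset_card_eq hcon.le
      let e := (Finset.equivFinOfCardEq ht2).symm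
      have he : ∀ j, (e j : Set X) ∈ 𝒢 ∧ (e j : Set X).ncard = i := fun j =>
        hf.mem_toFinset.1 (ht1 (e j).2)
      refine ⟨fun j => (e j : Set X), fun j => (he j).1, ?_, ?_⟩
      · intro j hj
        have h3 := (he j).2
        have hj' : (e j : Set X) = ∅ := hj
        rw [hj', Set.ncard_empty] at h3
        omega
      · intro j k hjk
        have h4 := Set.eq_of_subset_of_ncard_le hjk (by rw [(he j).2, (he k).2])
        exact e.injective (Subtype.ext h4)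
  have hcov : 𝒢 ⊆ ⋃ i ∈ Finset.range (Nat.card X + 1), {A | A ∈ 𝒢 ∧ A.ncard = i} := by
    intro A hA
    simp only [Set.mem_iUnion, Finset.mem_range]
    refine ⟨A.ncard, ?_, hA, rfl⟩
    have := Set.ncard_le_card A
    omega
  calc 𝒢.ncard ≤ (⋃ i ∈ Finset.range (Nat.card X + 1), {A | A ∈ 𝒢 ∧ A.ncard = i}).ncard :=
        Set.ncard_le_ncard hcov (Set.toFinite _)
    _ ≤ ∑ i ∈ Finset.range (Nat.card X + 1), ({A | A ∈ 𝒢 ∧ A.ncard = i}).ncard :=
        Finset.set_ncard_biUnion_le _ _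
    _ ≤ ∑ i ∈ Finset.range (Nat.card X + 1), w := Finset.sum_le_sum hlev
    _ = (Nat.card X + 1) * w := by rw [Finset.sum_const, Finset.card_range, smul_eq_mul]

lemma card_not_rich_le [Finite X] {w : ℕ} (hw : 0 < w) :
    Nat.card {𝒢 : Set (Set X) // IsConvexGeometry 𝒢 ∧ ¬ Rich w 𝒢} ≤
      2 ^ (Nat.card X * ((Nat.card X + 1) * w)) := by
  classical
  set s : ℕ := (Nat.card X + 1) * w with hs
  have hspos : 0 < s := Nat.mul_pos (Nat.succ_pos _) hw
  have hex : ∀ 𝒢 : {𝒢 : Set (Set X) // IsConvexGeometry 𝒢 ∧ ¬ Rich w 𝒢},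
      ∃ f : Fin s → Set X, Set.range f = 𝒢.1 := by
    intro 𝒢
    have h1 := ncard_le_of_not_rich hw 𝒢.2.2
    have hfin : 𝒢.1.Finite := Set.toFinite _
    have h2 : hfin.toFinset.card ≤ s := by
      rw [← Set.ncard_eq_toFinset_card _ hfin]; exact h1
    set m := hfin.toFinset.card with hm
    let e := (Finset.equivFinOfCardEq (s := hfin.toFinset) hm.symm).symm
    refine ⟨fun j => if h : (j : ℕ) < m then (e ⟨j, h⟩ : Set X) else ∅, ?_⟩
    ext A
    constructor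
    · rintro ⟨j, rfl⟩
      by_cases h : (j : ℕ) < m
      · simp only [h, dif_pos]
        exact hfin.mem_toFinset.1 (e ⟨j, h⟩).2
      · simp only [h, dif_neg, not_false_eq_true]
        exact 𝒢.2.1.empty_mem
    · intro hA
      let i := e.symm ⟨A, hfin.mem_toFinset.2 hA⟩
      refine ⟨⟨i, lt_of_lt_of_le i.2 h2⟩, ?_⟩
      simp only [i.2, dif_pos, Fin.eta]
      simp [i]
  choose f hf using hex
  have h1 : Nat.card {𝒢 : Set (Set X) // IsConvexGeometry 𝒢 ∧ ¬ Rich w 𝒢} ≤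
      Nat.card (Fin s → Set X) := by
    apply Nat.card_le_card_of_injective f
    intro a b hab
    apply Subtype.ext
    rw [← hf a, ← hf b, hab]
  refine h1.trans (le_of_eq ?_)
  have := Fintype.ofFinite X
  rw [Nat.card_fun, Nat.card_fin, Nat.card_eq_fintype_card, Fintype.card_set,
    Nat.card_eq_fintype_card, ← pow_mul]

/-- The key recursion. -/
lemma key_recursion (m w : ℕ) (hw : 0 < w) :
    2 ^ w * L m ≤ L (m + 1) + 2 ^ w * 2 ^ (m * ((m + 1) * w)) := by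
  classical
  have h1 := card_rich_mul_le (X := Fin m) w
  have h2 : Nat.card (CG (Option (Fin m))) = L (m + 1) :=
    card_CG (by rw [Finite.card_option, Nat.card_fin])
  have h3 := card_not_rich_le (X := Fin m) hw
  rw [Nat.card_fin] at h3
  rw [h2] at h1
  have h4 : L m ≤ Nat.card {𝒢 : Set (Set (Fin m)) // IsConvexGeometry 𝒢 ∧ Rich w 𝒢} +
      Nat.card {𝒢 : Set (Set (Fin m)) // IsConvexGeometry 𝒢 ∧ ¬ Rich w 𝒢} := by
    rw [← Nat.card_sum]
    apply Nat.card_le_card_of_injective (fun 𝒢 : CG (Fin m) =>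
      if h : Rich w 𝒢.1 then
        (Sum.inl ⟨𝒢.1, 𝒢.2, h⟩ : {𝒢 : Set (Set (Fin m)) // IsConvexGeometry 𝒢 ∧ Rich w 𝒢} ⊕
          {𝒢 : Set (Set (Fin m)) // IsConvexGeometry 𝒢 ∧ ¬ Rich w 𝒢})
      else Sum.inr ⟨𝒢.1, 𝒢.2, h⟩)
    intro a b hab
    apply Subtype.ext
    by_cases ha : Rich w a.1 <;> by_cases hb : Rich w b.1
    · simp only [ha, hb, dif_pos] at hab
      have h5 := congrArg Subtype.val (Sum.inl_injective hab)
      exact h5
    · simp only [ha, hb, dif_pos, dif_neg, not_false_eq_true] at hab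
      cases hab
    · simp only [ha, hb, dif_pos, dif_neg, not_false_eq_true] at hab
      cases hab
    · simp only [ha, hb, dif_neg, not_false_eq_true] at hab
      have h5 := congrArg Subtype.val (Sum.inr_injective hab)
      exact h5
  calc 2 ^ w * L m ≤ 2 ^ w *
        (Nat.card {𝒢 : Set (Set (Fin m)) // IsConvexGeometry 𝒢 ∧ Rich w 𝒢} +
          Nat.card {𝒢 : Set (Set (Fin m)) // IsConvexGeometry 𝒢 ∧ ¬ Rich w 𝒢}) :=
        Nat.mul_le_mul_left _ h4
    _ = Nat.card {𝒢 : Set (Set (Fin m)) // IsConvexGeometry 𝒢 ∧ Rich w 𝒢} * 2 ^ w +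
        2 ^ w * Nat.card {𝒢 : Set (Set (Fin m)) // IsConvexGeometry 𝒢 ∧ ¬ Rich w 𝒢} := by ring
    _ ≤ L (m + 1) + 2 ^ w * 2 ^ (m * ((m + 1) * w)) :=
        Nat.add_le_add h1 (Nat.mul_le_mul_left _ h3)

end sparse

end Pool.Agent.Work.MP_0c861e_co
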