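import Mathlib
import Pool.Agent.Work.MP_0c861e_co.Basic

/-!
# Non-primitive convex geometries are determined by a block, its fiber and the quotient
-/

set_option autoImplicit false

open Set

namespace Pool.Agent.Work.MP_0c861e_co

section res

variable {X : Type} {Y : X → Type} {𝒢X : Set (Set X)} {𝒢Y : ∀ x, Set (Set (Y x))}

/-- The block of `x0` in `Σ x, Y x`. -/
def blk (Y : X → Type) (x0 : X) : Set (Σ x, Y x) := {z | z.1 = x0}

lemma fst_union_blk {D : Set (Σ x, Y x)} {x0 : X} (h : x0 ∈ Sigma.fst '' D) :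
    Sigma.fst '' (D ∪ blk Y x0) = Sigma.fst '' D := by
  ext x
  constructor
  · rintro ⟨z, hz | hz, rfl⟩
    · exact ⟨z, hz, rfl⟩
    · have hz' : z.1 = x0 := hz
      rw [hz']; exact h
  · rintro ⟨z, hz, rfl⟩
    exact ⟨z, Or.inl hz, rfl⟩

lemma fst_diff_blk {D : Set (Σ x, Y x)} {x0 : X} :
    Sigma.fst '' (D \ blk Y x0) = Sigma.fst '' D \ {x0} := by
  ext x
  constructor
  · rintro ⟨z, ⟨hz1, hz2⟩, rfl⟩
    exact ⟨⟨z, hz1, rfl⟩, fun h => hz2 h⟩
  · rintro ⟨⟨z, hz, rfl⟩, h⟩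
    exact ⟨z, ⟨hz, fun h2 => h h2⟩, rfl⟩

lemma res_p1 (hY : ∀ x, IsConvexGeometry (𝒢Y x)) (hf : ∀ x, Finite (Y x))
    {D : Set (Σ x, Y x)} (hD : D ∈ resolution 𝒢X 𝒢Y) {x0 : X}
    (h : x0 ∈ Sigma.fst '' D) : D ∪ blk Y x0 ∈ resolution 𝒢X 𝒢Y := by
  obtain ⟨h1, h2, h3⟩ := hD
  refine ⟨?_, ?_, ?_⟩
  · rw [fst_union_blk h]; exact h1
  · rw [fst_union_blk h]
    intro x hx
    by_cases hx0 : x = x0
    · subst hx0
      have : {y : Y x | (⟨x, y⟩ : Σ x, Y x) ∈ D ∪ blk Y x} = Set.univ := by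
        ext y
        simp only [Set.mem_ofPred_eq, Set.mem_univ, iff_true]
        exact Or.inr rfl
      rw [this]
      have := hf x
      exact (hY x).univ_mem
    · have : {y : Y x | (⟨x, y⟩ : Σ x, Y x) ∈ D ∪ blk Y x0} =
          {y : Y x | (⟨x, y⟩ : Σ x, Y x) ∈ D} := by
        ext y
        simp only [Set.mem_ofPred_eq]
        constructor
        · rintro (h | h)
          · exact h
          · exact absurd h hx0
        · exact fun h => Or.inl h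
      rw [this]
      exact h2 x hx
  · rw [fst_union_blk h]
    intro x hx y
    exact Or.inl (h3 x hx y)

lemma res_p2 (hX : IsConvexGeometry 𝒢X)
    {D : Set (Σ x, Y x)} (hD : D ∈ resolution 𝒢X 𝒢Y) {x0 : X}
    (h : x0 ∈ Sigma.fst '' D) (hB : ¬ blk Y x0 ⊆ D) : D \ blk Y x0 ∈ resolution 𝒢X 𝒢Y := by
  obtain ⟨h1, h2, h3⟩ := hD
  have hex : x0 ∈ ex 𝒢X (Sigma.fst '' D) := by
    by_contra hcon
    apply hB
    rintro ⟨x, y⟩ hz
    have hz' : x = x0 := hz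
    subst hz'
    exact h3 x ⟨h, hcon⟩ y
  have hC' : Sigma.fst '' D \ {x0} ∈ 𝒢X := (mem_ex_iff hX h1 h).1 hex
  refine ⟨?_, ?_, ?_⟩
  · rw [fst_diff_blk]; exact hC'
  · rw [fst_diff_blk]
    rintro x ⟨hx, hx0⟩
    have : {y : Y x | (⟨x, y⟩ : Σ x, Y x) ∈ D \ blk Y x0} =
        {y : Y x | (⟨x, y⟩ : Σ x, Y x) ∈ D} := by
      ext y
      simp only [Set.mem_ofPred_eq]
      constructor
      · exact fun h => h.1
      · exact fun h => ⟨h, fun h2 => hx0 h2⟩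
    rw [this]
    exact h2 x hx
  · rw [fst_diff_blk]
    rintro x ⟨⟨hx, hx0⟩, hx2⟩ y
    refine ⟨h3 x ⟨hx, ?_⟩ y, fun h2 => hx0 h2⟩
    intro hx3
    apply hx2
    rw [mem_ex_iff hX hC' ⟨hx, hx0⟩]
    have h5 := (mem_ex_iff hX h1 hx).1 hx3
    have : (Sigma.fst '' D \ {x0}) \ {x} =
        (Sigma.fst '' D \ {x0}) ∩ (Sigma.fst '' D \ {x}) := by
      ext a
      constructor
      · rintro ⟨⟨ha1, ha2⟩, ha3⟩
        exact ⟨⟨ha1, ha2⟩, ha1, ha3⟩
      · rintro ⟨⟨ha1, ha2⟩, -, ha3⟩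
        exact ⟨⟨ha1, ha2⟩, ha3⟩
    rw [this]
    exact hX.inter_mem _ hC' _ h5

lemma res_p3 (hY : ∀ x, IsConvexGeometry (𝒢Y x))
    {D : Set (Σ x, Y x)} (hD : D ∈ resolution 𝒢X 𝒢Y) (x0 : X) :
    {y : Y x0 | (⟨x0, y⟩ : Σ x, Y x) ∈ D} ∈ 𝒢Y x0 := by
  by_cases h : x0 ∈ Sigma.fst '' D
  · exact hD.2.1 x0 h
  · have : {y : Y x0 | (⟨x0, y⟩ : Σ x, Y x) ∈ D} = ∅ := by
      ext y
      simp only [Set.mem_ofPred_eq, Set.mem_empty_iff_false, iff_false]
      exact fun h2 => h ⟨_, h2, rfl⟩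
    rw [this]
    exact (hY x0).empty_mem

lemma res_p4 (hX : IsConvexGeometry 𝒢X)
    {D : Set (Σ x, Y x)} {x0 : X} (h0 : D \ blk Y x0 ∈ resolution 𝒢X 𝒢Y)
    (h1 : D ∪ blk Y x0 ∈ resolution 𝒢X 𝒢Y)
    (h2 : {y : Y x0 | (⟨x0, y⟩ : Σ x, Y x) ∈ D} ∈ 𝒢Y x0) : D ∈ resolution 𝒢X 𝒢Y := by
  by_cases h : x0 ∈ Sigma.fst '' D
  · obtain ⟨a1, a2, a3⟩ := h1
    obtain ⟨b1, -, -⟩ := h0
    rw [fst_union_blk h] at a1 a2 a3
    rw [fst_diff_blk] at b1
    refine ⟨a1, ?_, ?_⟩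
    · intro x hx
      by_cases hx0 : x = x0
      · subst hx0; exact h2
      · have : {y : Y x | (⟨x, y⟩ : Σ x, Y x) ∈ D ∪ blk Y x0} =
            {y : Y x | (⟨x, y⟩ : Σ x, Y x) ∈ D} := by
          ext y
          simp only [Set.mem_ofPred_eq]
          constructor
          · rintro (h | h)
            · exact h
            · exact absurd h hx0
          · exact fun h => Or.inl h
        rw [← this]
        exact a2 x hx
    · rintro x ⟨hx, hx2⟩ y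
      rcases a3 x ⟨hx, hx2⟩ y with h5 | h5
      · exact h5
      · exfalso
        have h6 : x = x0 := h5
        subst h6
        exact hx2 ((mem_ex_iff hX a1 hx).2 b1)
  · have : D \ blk Y x0 = D := by
      ext z
      constructor
      · exact fun h => h.1
      · intro hz
        refine ⟨hz, fun h2 => h ?_⟩
        have h3 : z.1 = x0 := h2
        exact ⟨z, hz, h3⟩
    rwa [this] at h0

end res

section blocks

variable {Z : Type}

/-- The subset of `Z` described by a subset of the quotient `Option Bᶜ`. -/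
def lift (B : Set Z) (E : Set (Option ↥Bᶜ)) : Set Z :=
  {z | (∃ h : z ∈ Bᶜ, some ⟨z, h⟩ ∈ E) ∨ (z ∈ B ∧ none ∈ E)}

/-- The trace of `D` on `Bᶜ`, in the quotient. -/
def q0 (B : Set Z) (D : Set Z) : Set (Option ↥Bᶜ) := {o | ∃ z : ↥Bᶜ, o = some z ∧ z.1 ∈ D}

/-- The trace of `D` on `Bᶜ` together with the point of `B`, in the quotient. -/
def q1 (B : Set Z) (D : Set Z) : Set (Option ↥Bᶜ) := q0 B D ∪ {none}

lemma none_notMem_q0 {B D : Set Z} : none ∉ q0 B D := by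
  rintro ⟨z, hz, -⟩
  cases hz

lemma some_mem_q0 {B D : Set Z} {z : Z} (h : z ∈ Bᶜ) : some ⟨z, h⟩ ∈ q0 B D ↔ z ∈ D := by
  constructor
  · rintro ⟨w, hw, hwD⟩
    rw [Option.some_inj] at hw
    rw [← hw] at hwD
    exact hwD
  · exact fun h2 => ⟨_, rfl, h2⟩

lemma lift_q0 {B D : Set Z} : lift B (q0 B D) = D \ B := by
  ext z
  constructor
  · rintro (⟨h, hz⟩ | ⟨h, hz⟩)
    · exact ⟨(some_mem_q0 h).1 hz, h⟩
    · exact absurd hz none_notMem_q0
  · rintro ⟨h1, h2⟩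
    exact Or.inl ⟨h2, (some_mem_q0 h2).2 h1⟩

lemma lift_q1 {B D : Set Z} : lift B (q1 B D) = D ∪ B := by
  ext z
  constructor
  · rintro (⟨h, hz | hz⟩ | ⟨h, hz⟩)
    · exact Or.inl ((some_mem_q0 h).1 hz)
    · cases hz
    · exact Or.inr h
  · intro h
    by_cases hB : z ∈ B
    · exact Or.inr ⟨hB, Or.inr rfl⟩
    · rcases h with h | h
      · exact Or.inl ⟨hB, Or.inl ((some_mem_q0 hB).2 h)⟩
      · exact absurd h hB

/-- Reconstruction of a family from a block `B`, the family on the block and the quotient. -/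
def recon (B : Set Z) (ℱ : Set (Set ↥B)) (𝒬 : Set (Set (Option ↥Bᶜ))) : Set (Set Z) :=
  {D | (D ∩ B = ∅ ∧ q0 B D ∈ 𝒬) ∨ (B ⊆ D ∧ q1 B D ∈ 𝒬) ∨
    ((Subtype.val ⁻¹' D : Set ↥B) ∈ ℱ ∧ q0 B D ∈ 𝒬 ∧ q1 B D ∈ 𝒬)}

/-- `B` behaves like a fiber of a resolution, with fiber family `ℱ`. -/
structure IsBlock (𝒢 : Set (Set Z)) (B : Set Z) (ℱ : Set (Set ↥B)) : Prop where
  p1 : ∀ D ∈ 𝒢, (D ∩ B).Nonempty → D ∪ B ∈ 𝒢
  p2 : ∀ D ∈ 𝒢, (D ∩ B).Nonempty → ¬ B ⊆ D → D \ B ∈ 𝒢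
  p3 : ∀ D ∈ 𝒢, (Subtype.val ⁻¹' D : Set ↥B) ∈ ℱ
  p4 : ∀ D, D \ B ∈ 𝒢 → D ∪ B ∈ 𝒢 → (Subtype.val ⁻¹' D : Set ↥B) ∈ ℱ → D ∈ 𝒢

lemma IsBlock.recon_eq {𝒢 : Set (Set Z)} {B : Set Z} {ℱ : Set (Set ↥B)} (h : IsBlock 𝒢 B ℱ) :
    recon B ℱ {E | lift B E ∈ 𝒢} = 𝒢 := by
  ext D
  simp only [recon, Set.mem_ofPred_eq, lift_q0, lift_q1]
  constructor
  · rintro (⟨h1, h2⟩ | ⟨h1, h2⟩ | ⟨h1, h2, h3⟩)
    · rwa [(Set.disjoint_iff_inter_eq_empty.2 h1).sdiff_eq_left] at h2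
    · rwa [Set.union_eq_self_of_subset_right h1] at h2
    · exact h.p4 D h2 h3 h1
  · intro hD
    by_cases h1 : D ∩ B = ∅
    · left
      refine ⟨h1, ?_⟩
      rwa [(Set.disjoint_iff_inter_eq_empty.2 h1).sdiff_eq_left]
    · right
      have h1' : (D ∩ B).Nonempty := Set.nonempty_iff_ne_empty.2 h1
      by_cases h2 : B ⊆ D
      · left
        refine ⟨h2, ?_⟩
        rwa [Set.union_eq_self_of_subset_right h2]
      · right
        exact ⟨h.p3 D hD, h.p2 D hD h1' h2, h.p1 D hD h1'⟩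

lemma IsBlock.isConvexGeometry_quot {𝒢 : Set (Set Z)} {B : Set Z} {ℱ : Set (Set ↥B)}
    (h : IsBlock 𝒢 B ℱ) (hG : IsConvexGeometry 𝒢) (hB : B.Nonempty) :
    IsConvexGeometry {E : Set (Option ↥Bᶜ) | lift B E ∈ 𝒢} where
  empty_mem := by
    have : lift B (∅ : Set (Option ↥Bᶜ)) = ∅ := by
      ext z
      constructor
      · rintro (⟨_, hz⟩ | ⟨_, hz⟩)
        · exact absurd hz (Set.notMem_empty _)
        · exact absurd hz (Set.notMem_empty _)
      · exact fun hz => absurd hz (Set.notMem_empty _)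
    change lift B (∅ : Set (Option ↥Bᶜ)) ∈ 𝒢
    rw [this]
    exact hG.empty_mem
  inter_mem E hE F hF := by
    have : lift B (E ∩ F) = lift B E ∩ lift B F := by
      ext z
      constructor
      · rintro (⟨h1, h2, h3⟩ | ⟨h1, h2, h3⟩)
        · exact ⟨Or.inl ⟨h1, h2⟩, Or.inl ⟨h1, h3⟩⟩
        · exact ⟨Or.inr ⟨h1, h2⟩, Or.inr ⟨h1, h3⟩⟩
      · rintro ⟨⟨h1, h2⟩ | ⟨h1, h2⟩, ⟨h3, h4⟩ | ⟨h3, h4⟩⟩
        · exact Or.inl ⟨h1, h2, h4⟩
        · exact absurd h3 h1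
        · exact absurd h1 h3
        · exact Or.inr ⟨h1, h2, h4⟩
    change lift B (E ∩ F) ∈ 𝒢
    rw [this]
    exact hG.inter_mem _ hE _ hF
  exists_insert E hE hne := by
    have hE' : lift B E ∈ 𝒢 := hE
    have hlift : lift B E ≠ Set.univ := by
      intro hu
      apply hne
      ext o
      simp only [Set.mem_univ, iff_true]
      cases o with
      | none =>
        obtain ⟨b, hb⟩ := hB
        have hb2 : b ∈ lift B E := by rw [hu]; trivial
        rcases hb2 with ⟨h1, h2⟩ | ⟨h1, h2⟩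
        · exact absurd hb h1
        · exact h2
      | some z =>
        have hb2 : z.1 ∈ lift B E := by rw [hu]; trivial
        rcases hb2 with ⟨h1, h2⟩ | ⟨h1, h2⟩
        · exact h2
        · exact absurd h1 z.2
    obtain ⟨i, hi1, hi2⟩ := hG.exists_insert _ hE' hlift
    by_cases hiB : i ∈ B
    · have hnone : none ∉ E := fun h2 => hi1 (Or.inr ⟨hiB, h2⟩)
      refine ⟨none, hnone, ?_⟩
      have h1 := h.p1 _ hi2 ⟨i, Or.inr rfl, hiB⟩
      have : lift B (E ∪ {none}) = lift B E ∪ {i} ∪ B := by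
        ext z
        constructor
        · rintro (⟨h2, h3 | h3⟩ | ⟨h2, h3⟩)
          · exact Or.inl (Or.inl (Or.inl ⟨h2, h3⟩))
          · cases h3
          · exact Or.inr h2
        · rintro ((h2 | h2) | h2)
          · rcases h2 with ⟨h3, h4⟩ | ⟨h3, h4⟩
            · exact Or.inl ⟨h3, Or.inl h4⟩
            · exact Or.inr ⟨h3, Or.inl h4⟩
          · have h3 : z = i := h2
            rw [h3]
            exact Or.inr ⟨hiB, Or.inr rfl⟩
          · exact Or.inr ⟨h2, Or.inr rfl⟩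
      change lift B (E ∪ {none}) ∈ 𝒢
      rw [this]
      exact h1
    · refine ⟨some ⟨i, hiB⟩, fun h2 => hi1 (Or.inl ⟨hiB, h2⟩), ?_⟩
      have : lift B (E ∪ {some ⟨i, hiB⟩}) = lift B E ∪ {i} := by
        ext z
        constructor
        · rintro (⟨h2, h3 | h3⟩ | ⟨h2, h3 | h3⟩)
          · exact Or.inl (Or.inl ⟨h2, h3⟩)
          · have h4 : (⟨z, h2⟩ : ↥Bᶜ) = ⟨i, hiB⟩ := Option.some_inj.1 h3
            exact Or.inr (congrArg Subtype.val h4)
          · exact Or.inl (Or.inr ⟨h2, h3⟩)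
          · cases h3
        · rintro (h2 | h2)
          · rcases h2 with ⟨h3, h4⟩ | ⟨h3, h4⟩
            · exact Or.inl ⟨h3, Or.inl h4⟩
            · exact Or.inr ⟨h3, Or.inl h4⟩
          · have h3 : z = i := h2
            subst h3
            exact Or.inl ⟨hiB, Or.inr rfl⟩
      change lift B (E ∪ {some ⟨i, hiB⟩}) ∈ 𝒢
      rw [this]
      exact hi2

/-- A non-primitive convex geometry has a nontrivial block. -/
lemma exists_block [Finite Z] {𝒢 : Set (Set Z)} (h : ¬ IsPrimitive 𝒢) :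
    ∃ (B : Set Z) (ℱ : Set (Set ↥B)), 2 ≤ B.ncard ∧ B.ncard < Nat.card Z ∧
      IsConvexGeometry ℱ ∧ IsBlock 𝒢 B ℱ := by
  classical
  unfold IsPrimitive at h
  push Not at h
  obtain ⟨X, Y, 𝒢X, 𝒢Y, hfX, hfY, hneY, hX, hY, hcX, ⟨x0, hx0⟩, e, he⟩ := h
  set B : Set Z := {z | (e z).1 = x0} with hB
  have hfst : ∀ y : Y x0, (e (e.symm ⟨x0, y⟩)).1 = x0 := by
    intro y; rw [e.apply_symm_apply]
  -- the block is in bijection with the fiber
  let ε : Y x0 ≃ ↥B :=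
    { toFun := fun y => ⟨e.symm ⟨x0, y⟩, hfst y⟩
      invFun := fun b => b.2 ▸ (e b.1).2
      left_inv := by
        intro y
        simp only
        have key : ∀ (s : Σ x, Y x) (hs : s = ⟨x0, y⟩) (h1 : s.1 = x0), h1 ▸ s.2 = y := by
          rintro _ rfl h1
          rfl
        exact key _ (e.apply_symm_apply _) _
      right_inv := by
        rintro ⟨b, hb⟩
        apply Subtype.ext
        simp only
        rw [Equiv.symm_apply_eq]
        have key : ∀ (s : Σ x, Y x) (h1 : s.1 = x0), (⟨x0, h1 ▸ s.2⟩ : Σ x, Y x) = s := by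
          rintro ⟨x, y⟩ h1
          cases h1
          rfl
        exact key _ _ }
  have hεcard : Nat.card ↥B = Nat.card (Y x0) := (Nat.card_congr ε).symm
  have himB : e '' B = blk Y x0 := by
    ext s
    constructor
    · rintro ⟨z, hz, rfl⟩
      exact hz
    · intro hs
      exact ⟨e.symm s, by change (e (e.symm s)).1 = x0; rw [e.apply_symm_apply]; exact hs,
        e.apply_symm_apply s⟩
  have hsec : ∀ D : Set Z, (ε ⁻¹' (Subtype.val ⁻¹' D : Set ↥B)) =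
      {y : Y x0 | (⟨x0, y⟩ : Σ x, Y x) ∈ e '' D} := by
    intro D
    ext y
    constructor
    · intro hy
      exact ⟨e.symm ⟨x0, y⟩, hy, e.apply_symm_apply _⟩
    · rintro ⟨z, hz, hz2⟩
      change e.symm ⟨x0, y⟩ ∈ D
      rw [← hz2, e.symm_apply_apply]
      exact hz
  have hmeet : ∀ D : Set Z, (D ∩ B).Nonempty → x0 ∈ Sigma.fst '' (e '' D) := by
    rintro D ⟨z, hz1, hz2⟩
    exact ⟨e z, ⟨z, hz1, rfl⟩, hz2⟩
  refine ⟨B, tr ε (𝒢Y x0), ?_, ?_, (hY x0).tr ε, ?_, ?_, ?_, ?_⟩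
  · rw [← Nat.card_coe_set_eq, hεcard]; exact hx0
  · have h1 : ∃ x1 : X, x1 ≠ x0 := by
      have : Nontrivial X := by
        rw [← Finite.one_lt_card_iff_nontrivial]; exact hcX
      exact exists_ne x0
    obtain ⟨x1, hx1⟩ := h1
    obtain ⟨y1⟩ := hneY x1
    have h2 : B ⊂ Set.univ := by
      rw [Set.ssubset_univ_iff, Set.ne_univ_iff_exists_notMem]
      refine ⟨e.symm ⟨x1, y1⟩, ?_⟩
      intro h3
      have h4 : (e (e.symm ⟨x1, y1⟩)).1 = x0 := h3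
      rw [e.apply_symm_apply] at h4
      exact hx1 h4
    have h3 := Set.ncard_lt_ncard h2 (Set.toFinite _)
    rwa [Set.ncard_univ] at h3
  · intro D hD hDB
    rw [he] at hD ⊢
    rw [Set.image_union, himB]
    exact res_p1 hY hfY hD (hmeet D hDB)
  · intro D hD hDB hBD
    rw [he] at hD ⊢
    rw [Set.image_sdiff e.injective, himB]
    refine res_p2 hX hD (hmeet D hDB) ?_
    intro h1
    apply hBD
    rw [← himB] at h1
    exact (Set.image_subset_image_iff e.injective).1 h1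
  · intro D hD
    rw [he] at hD
    change ε ⁻¹' (Subtype.val ⁻¹' D : Set ↥B) ∈ 𝒢Y x0
    rw [hsec]
    exact res_p3 hY hD x0
  · intro D h0 h1 h2
    rw [he] at h0 h1 ⊢
    rw [Set.image_sdiff e.injective, himB] at h0
    rw [Set.image_union, himB] at h1
    have h2' : ε ⁻¹' (Subtype.val ⁻¹' D : Set ↥B) ∈ 𝒢Y x0 := h2
    rw [hsec] at h2'
    exact res_p4 hX h0 h1 h2'

end blocks

/-! ### Counting -/

/-- The number of non-primitive convex geometries on `Fin n`. -/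
noncomputable def NP (n : ℕ) : ℕ :=
  Nat.card {𝒢 : Set (Set (Fin n)) // IsConvexGeometry 𝒢 ∧ ¬ IsPrimitive 𝒢}

lemma NP_le (n : ℕ) : NP n ≤ 2 ^ n * (2 ^ 2 ^ ((n + 1) / 2) * L (n - 1)) := by
  classical
  let I : Type := {B : Set (Fin n) // 2 ≤ B.ncard ∧ B.ncard < n}
  let Data : Type := Σ B : I, CG ↥B.1 × CG (Option ↥(B.1)ᶜ)
  have hex : ∀ 𝒢 : {𝒢 : Set (Set (Fin n)) // IsConvexGeometry 𝒢 ∧ ¬ IsPrimitive 𝒢},
      ∃ d : Data, recon d.1.1 d.2.1.1 d.2.2.1 = 𝒢.1 := by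
    rintro ⟨𝒢, h1, h2⟩
    obtain ⟨B, ℱ, hB1, hB2, hℱ, hblock⟩ := exists_block h2
    rw [Nat.card_fin] at hB2
    have hBne : B.Nonempty := by
      rw [← Set.ncard_pos (Set.toFinite B)]; omega
    exact ⟨⟨⟨B, hB1, hB2⟩, ⟨ℱ, hℱ⟩, ⟨_, hblock.isConvexGeometry_quot h1 hBne⟩⟩, hblock.recon_eq⟩
  choose d hd using hex
  have h1 : NP n ≤ Nat.card Data := by
    apply Nat.card_le_card_of_injective d
    intro a b hab
    apply Subtype.ext
    rw [← hd a, ← hd b, hab]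
  refine h1.trans ?_
  have : Fintype I := Fintype.ofFinite I
  have h2 : Nat.card Data = ∑ B : I, Nat.card (CG ↥B.1 × CG (Option ↥(B.1)ᶜ)) := Nat.card_sigma
  rw [h2]
  have h3 : ∀ B : I, Nat.card (CG ↥B.1 × CG (Option ↥(B.1)ᶜ)) ≤
      2 ^ 2 ^ ((n + 1) / 2) * L (n - 1) := by
    rintro ⟨B, hB1, hB2⟩
    rw [Nat.card_prod]
    have e1 : Nat.card (CG ↥B) = L B.ncard := card_CG (Nat.card_coe_set_eq B)
    have hcompl : B.ncard + Bᶜ.ncard = n := by
      rw [Set.ncard_add_ncard_compl, Nat.card_fin]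
    have e2 : Nat.card (CG (Option ↥Bᶜ)) = L (n + 1 - B.ncard) := by
      apply card_CG
      rw [Finite.card_option, Nat.card_coe_set_eq]
      omega
    rw [e1, e2]
    rcases le_or_gt B.ncard ((n + 1) / 2) with h | h
    · exact Nat.mul_le_mul ((L_le _).trans
        (Nat.pow_le_pow_right (by norm_num) (Nat.pow_le_pow_right (by norm_num) h)))
        (L_mono (by omega))
    · rw [mul_comm]
      exact Nat.mul_le_mul ((L_le _).trans
        (Nat.pow_le_pow_right (by norm_num) (Nat.pow_le_pow_right (by norm_num) (by omega))))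
        (L_mono (by omega))
  have h4 : Fintype.card I ≤ 2 ^ n := by
    have h5 : Fintype.card I ≤ Fintype.card (Set (Fin n)) :=
      Fintype.card_le_of_injective Subtype.val Subtype.val_injective
    rwa [Fintype.card_set, Fintype.card_fin] at h5
  calc ∑ B : I, Nat.card (CG ↥B.1 × CG (Option ↥(B.1)ᶜ))
      ≤ ∑ _B : I, 2 ^ 2 ^ ((n + 1) / 2) * L (n - 1) := Finset.sum_le_sum (fun B _ => h3 B)
    _ = Fintype.card I * (2 ^ 2 ^ ((n + 1) / 2) * L (n - 1)) := by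
        rw [Finset.sum_const, Finset.card_univ, smul_eq_mul]
    _ ≤ 2 ^ n * (2 ^ 2 ^ ((n + 1) / 2) * L (n - 1)) := Nat.mul_le_mul_right _ h4

end Pool.Agent.Work.MP_0c861e_co
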