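import Mathlib
import Pool.Agent.Work.MP_0c861e_co.Blocks

/-!
# The asymptotic inequality
-/

set_option autoImplicit false

open Set Filter Topology

namespace Pool.Agent.Work.MP_0c861e_co

lemma cube_le (k : ℕ) (hk : 20 ≤ k) : (2 * k + 2) ^ 3 ≤ 2 ^ (k - 2) := by
  induction k, hk using Nat.le_induction with
  | base => norm_num
  | succ k hk ih =>
    have h1 : k + 1 - 2 = (k - 2) + 1 := by omega
    rw [h1, pow_succ]
    have h2 : (2 * (k + 1) + 2) ^ 3 ≤ (2 * k + 2) ^ 3 * 2 := by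
      obtain ⟨j, rfl⟩ := Nat.exists_eq_add_of_le hk
      ring_nf
      nlinarith [sq_nonneg j, Nat.zero_le (j ^ 3), Nat.zero_le (j ^ 2), Nat.zero_le j]
    exact h2.trans (Nat.mul_le_mul_right _ ih)

lemma sq_le (k : ℕ) (hk : 20 ≤ k) : (2 * k + 2) ^ 2 + 2 * (2 * k + 2) ≤ 2 ^ (k + 1) := by
  have h1 := cube_le k hk
  have h2 : 2 ^ (k - 2) ≤ 2 ^ (k + 1) := Nat.pow_le_pow_right (by norm_num) (by omega)
  refine le_trans ?_ (h1.trans h2)
  have h3 : 42 ≤ 2 * k + 2 := by omega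
  calc (2 * k + 2) ^ 2 + 2 * (2 * k + 2) ≤ (2 * k + 2) ^ 2 + 41 * (2 * k + 2) ^ 2 := by
        nlinarith
    _ = 42 * (2 * k + 2) ^ 2 := by ring
    _ ≤ (2 * k + 2) * (2 * k + 2) ^ 2 := Nat.mul_le_mul_right _ h3
    _ = (2 * k + 2) ^ 3 := by ring

lemma two_pow_le_choose (m : ℕ) : 2 ^ m ≤ (m + 1) * m.choose (m / 2) := by
  rw [← Nat.sum_range_choose m]
  calc ∑ i ∈ Finset.range (m + 1), m.choose i ≤ ∑ _i ∈ Finset.range (m + 1), m.choose (m / 2) :=
        Finset.sum_le_sum (fun i _ => Nat.choose_le_middle i m)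
    _ = (m + 1) * m.choose (m / 2) := by
        rw [Finset.sum_const, Finset.card_range, smul_eq_mul]

/-- The main inequality. -/
lemma main_ineq (n : ℕ) (hn : 42 ≤ n) : NP n * n.factorial * 2 ^ n ≤ 2 * L n := by
  obtain ⟨m, rfl⟩ : ∃ m, n = m + 1 := ⟨n - 1, by omega⟩
  set k : ℕ := m / 2 with hk
  have hk20 : 20 ≤ k := by omega
  have hm : m + 1 ≤ 2 * k + 2 := by omega
  set w : ℕ := 2 ^ (k + 2) with hw
  have hwpos : 0 < w := by positivity
  have h1 := NP_le (m + 1)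
  have e1 : (m + 1 + 1) / 2 = k + 1 := by omega
  have e2 : m + 1 - 1 = m := by omega
  rw [e1, e2] at h1
  have hrec := key_recursion m w hwpos
  have hch := two_pow_choose_le m (by omega)
  -- factorial bound
  have hfac : (m + 1).factorial ≤ 2 ^ ((m + 1) * (m + 1)) := by
    calc (m + 1).factorial ≤ (m + 1) ^ (m + 1) := Nat.factorial_le_pow _
      _ ≤ (2 ^ (m + 1)) ^ (m + 1) := Nat.pow_le_pow_left (Nat.lt_two_pow_self).le _
      _ = 2 ^ ((m + 1) * (m + 1)) := by rw [← pow_mul]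
  set A : ℕ := 2 ^ ((m + 1) * (m + 1)) * 2 ^ (m + 1) * 2 ^ (m + 1) * 2 ^ 2 ^ (k + 1) with hA
  have hA1 : NP (m + 1) * (m + 1).factorial * 2 ^ (m + 1) ≤ A * L m := by
    calc NP (m + 1) * (m + 1).factorial * 2 ^ (m + 1)
        ≤ (2 ^ (m + 1) * (2 ^ 2 ^ (k + 1) * L m)) * 2 ^ ((m + 1) * (m + 1)) * 2 ^ (m + 1) :=
          Nat.mul_le_mul_right _ (Nat.mul_le_mul h1 hfac)
      _ = A * L m := by rw [hA]; ring
  have hA2 : A ≤ 2 ^ w := by
    have h5 : A = 2 ^ ((m + 1) * (m + 1) + 2 * (m + 1) + 2 ^ (k + 1)) := by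
      rw [hA]
      rw [← pow_add, ← pow_add, ← pow_add]
      congr 1
      ring
    rw [h5]
    apply Nat.pow_le_pow_right (by norm_num)
    have h6 := sq_le k hk20
    have h7 : (m + 1) * (m + 1) ≤ (2 * k + 2) ^ 2 := by
      rw [sq]; exact Nat.mul_le_mul hm hm
    have h8 : w = 2 ^ (k + 1) + 2 ^ (k + 1) := by rw [hw]; ring
    omega
  have hA3 : A * 2 ^ (m * ((m + 1) * w)) ≤ L (m + 1) := by
    refine le_trans ?_ hch
    calc A * 2 ^ (m * ((m + 1) * w)) ≤ 2 ^ w * 2 ^ (m * ((m + 1) * w)) :=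
          Nat.mul_le_mul_right _ hA2
      _ = 2 ^ (w + m * ((m + 1) * w)) := by rw [← pow_add]
      _ ≤ 2 ^ (m.choose (m / 2)) := by
          apply Nat.pow_le_pow_right (by norm_num)
          have h9 := two_pow_le_choose m
          have h10 := cube_le k hk20
          have h11 : (m + 1) * (w + m * ((m + 1) * w)) ≤ 2 ^ m := by
            calc (m + 1) * (w + m * ((m + 1) * w)) ≤ (m + 1) * ((m + 1) * (m + 1) * w) := by
                  apply Nat.mul_le_mul_left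
                  nlinarith
              _ = (m + 1) ^ 3 * w := by ring
              _ ≤ (2 * k + 2) ^ 3 * w := Nat.mul_le_mul_right _ (Nat.pow_le_pow_left hm 3)
              _ ≤ 2 ^ (k - 2) * w := Nat.mul_le_mul_right _ h10
              _ = 2 ^ (2 * k) := by
                  rw [hw, ← pow_add]
                  congr 1
                  omega
              _ ≤ 2 ^ m := Nat.pow_le_pow_right (by norm_num) (by omega)
          have h12 : (m + 1) * (w + m * ((m + 1) * w)) ≤ (m + 1) * m.choose (m / 2) :=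
            h11.trans h9
          exact Nat.le_of_mul_le_mul_left h12 (Nat.succ_pos m)
  have hfin : 2 ^ w * (A * L m) ≤ 2 ^ w * (2 * L (m + 1)) := by
    calc 2 ^ w * (A * L m) = A * (2 ^ w * L m) := by ring
      _ ≤ A * (L (m + 1) + 2 ^ w * 2 ^ (m * ((m + 1) * w))) := Nat.mul_le_mul_left _ hrec
      _ = A * L (m + 1) + 2 ^ w * (A * 2 ^ (m * ((m + 1) * w))) := by ring
      _ ≤ 2 ^ w * L (m + 1) + 2 ^ w * L (m + 1) :=
          Nat.add_le_add (Nat.mul_le_mul_right _ hA2) (Nat.mul_le_mul_left _ hA3)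
      _ = 2 ^ w * (2 * L (m + 1)) := by ring
  exact hA1.trans (Nat.le_of_mul_le_mul_left hfin (by positivity))

lemma L_eq (n : ℕ) : L n = Lpr n + NP n := by
  classical
  unfold L Lpr NP
  rw [← Nat.card_sum]
  apply Nat.card_congr
  refine ⟨fun 𝒢 => if h : IsPrimitive 𝒢.1 then Sum.inl ⟨𝒢.1, 𝒢.2, h⟩ else Sum.inr ⟨𝒢.1, 𝒢.2, h⟩,
    fun s => Sum.elim (fun 𝒢 => ⟨𝒢.1, 𝒢.2.1⟩) (fun 𝒢 => ⟨𝒢.1, 𝒢.2.1⟩) s, ?_, ?_⟩
  · intro 𝒢
    by_cases h : IsPrimitive 𝒢.1
    · simp only [h, dif_pos, Sum.elim_inl]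
    · simp only [h, dif_neg, not_false_eq_true, Sum.elim_inr]
  · rintro (𝒢 | 𝒢)
    · have h : IsPrimitive 𝒢.1 := 𝒢.2.2
      exact dif_pos h
    · have h : ¬ IsPrimitive 𝒢.1 := 𝒢.2.2
      exact dif_neg h

lemma ratio_le (n : ℕ) (hn : 42 ≤ n) :
    (NP n : ℝ) * (n.factorial : ℝ) / (L n : ℝ) ≤ 2 * (1 / 2) ^ n := by
  have h1 := main_ineq n hn
  have h2 : (NP n : ℝ) * (n.factorial : ℝ) * 2 ^ n ≤ 2 * (L n : ℝ) := by exact_mod_cast h1
  have h3 : (0 : ℝ) < L n := by exact_mod_cast L_pos n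
  have h4 : (0 : ℝ) < 2 ^ n := by positivity
  rw [div_le_iff₀ h3]
  have h5 : (2 : ℝ) * (1 / 2) ^ n * (L n : ℝ) = (2 * (L n : ℝ)) / 2 ^ n := by
    rw [one_div, inv_pow]
    field_simp
  rw [h5, le_div_iff₀ h4]
  exact h2

lemma tendsto_ratio :
    Tendsto (fun n : ℕ => (NP n : ℝ) * (n.factorial : ℝ) / (L n : ℝ)) atTop (𝓝 0) := by
  have h1 : Tendsto (fun n : ℕ => (2 : ℝ) * (1 / 2) ^ n) atTop (𝓝 0) := by
    have := (tendsto_pow_atTop_nhds_zero_of_lt_one (r := (1 / 2 : ℝ)) (by norm_num)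
      (by norm_num)).const_mul 2
    simpa using this
  refine tendsto_of_tendsto_of_tendsto_of_le_of_le' tendsto_const_nhds h1 ?_ ?_
  · exact Eventually.of_forall (fun n => by positivity)
  · filter_upwards [eventually_ge_atTop 42] with n hn
    exact ratio_le n hn

end Pool.Agent.Work.MP_0c861e_co
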